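import Pool.Agent.Q279.CB.Poly
import Pool.Agent.Q279.BA.D

/-!
# The coefficients as products
-/

set_option autoImplicit false

namespace Q279.CB

open Finset Q279.BA

/-- `C(n+k, 2k)` as a rational number -/
def B (n k : ℕ) : ℚ := ((n + k).choose (2 * k) : ℚ)

theorem B_zero (n : ℕ) : B n 0 = 1 := by simp [B]

theorem B_succ (n k : ℕ) : B n (k + 1) * ((2 * k + 1) * (2 * k + 2)) = B n k * ((n - k) * (n + k + 1)) := by
  unfold B
  rcases Nat.lt_or_ge n k with h | h
  · rw [Nat.choose_eq_zero_of_lt (show n + (k + 1) < 2 * (k + 1) by omega),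
      Nat.choose_eq_zero_of_lt (show n + k < 2 * k by omega)]
    simp
  · have h1 := Nat.add_one_mul_choose_eq (n + k) (2 * k + 1)
    have h2 := Nat.choose_succ_right_eq (n + k) (2 * k)
    have e1 : n + k + 1 = n + (k + 1) := by omega
    have e2 : 2 * k + 1 + 1 = 2 * (k + 1) := by omega
    have e3 : n + k - 2 * k = n - k := by omega
    rw [e1, e2] at h1
    rw [e3] at h2
    have h1' : ((n : ℚ) + (k + 1)) * ((n + k).choose (2 * k + 1) : ℚ)
        = ((n + (k + 1)).choose (2 * (k + 1)) : ℚ) * (2 * (k + 1)) := by exact_mod_cast h1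
    have h2' : ((n + k).choose (2 * k + 1) : ℚ) * (2 * k + 1) = ((n + k).choose (2 * k) : ℚ) * ((n : ℚ) - k) := by
      rw [← Nat.cast_sub h]
      exact_mod_cast h2
    linear_combination (-(2 * (k : ℚ) + 1)) * h1' + ((n : ℚ) + (k + 1)) * h2'

/-- central binomial coefficients -/
theorem c_succ (k : ℕ) : ((k + 1).centralBinom : ℚ) * (k + 1) = 2 * (2 * k + 1) * (k.centralBinom : ℚ) := by
  have := Nat.succ_mul_centralBinom_succ k
  have h : ((k : ℚ) + 1) * ((k + 1).centralBinom : ℚ) = 2 * (2 * k + 1) * (k.centralBinom : ℚ) := by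
    exact_mod_cast this
  linarith

theorem prodA (n k : ℕ) : (-1) ^ k * (n - k) * B n k * k.centralBinom
    = n * ∏ j ∈ range k, (1 - (n : ℚ) ^ 2 / (j + 1) ^ 2) := by
  induction k with
  | zero => simp [B_zero]
  | succ k ih =>
    rw [Finset.prod_range_succ, ← mul_assoc, ← ih]
    have h1 := B_succ n k
    have h2 := c_succ k
    have hk : (k : ℚ) + 1 ≠ 0 := by positivity
    have hk2 : 2 * (k : ℚ) + 1 ≠ 0 := by positivity
    have e1 : B n (k + 1) = B n k * ((n - k) * (n + k + 1)) / ((2 * k + 1) * (2 * k + 2)) := by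
      rw [eq_div_iff (by positivity), h1]
    have e2 : ((k + 1).centralBinom : ℚ) = 2 * (2 * k + 1) * (k.centralBinom : ℚ) / (k + 1) := by
      rw [eq_div_iff hk, h2]
    rw [e1, e2]
    push_cast
    field_simp
    ring

/-- `C(n+k, 2k) + C(n+k-1, 2k)` -/
def A (n k : ℕ) : ℚ := B n k + B (n - 1) k

theorem A_mul {n k : ℕ} (hn : 1 ≤ n) (hk : k ≤ n) : (n + k) * A n k = 2 * n * B n k := by
  obtain ⟨m, rfl⟩ : ∃ m, n = m + 1 := ⟨n - 1, by omega⟩
  unfold A B
  rw [Nat.add_sub_cancel]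
  have h1 := Nat.choose_mul_succ_eq (m + k) (2 * k)
  have e1 : m + k + 1 = m + 1 + k := by omega
  rw [e1] at h1
  have e2 : m + 1 + k - 2 * k = m + 1 - k := by omega
  rw [e2] at h1
  have h1' : ((m + k).choose (2 * k) : ℚ) * (m + 1 + k) = ((m + 1 + k).choose (2 * k) : ℚ) * (((m + 1 : ℕ) : ℚ) - k) := by
    rw [← Nat.cast_sub hk]
    exact_mod_cast h1
  push_cast at h1' ⊢
  linear_combination h1'

theorem A_succ {n k : ℕ} (hk : k + 1 ≤ n) :
    A n (k + 1) * ((k + 1) ^ 2 * (k + 1).centralBinom) = 2 * n * ((n - k) * B n k * k.centralBinom) := by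
  have h0 := A_mul (n := n) (k := k + 1) (by omega) hk
  have h1 := B_succ n k
  have h2 := c_succ k
  have hk1 : (k : ℚ) + 1 ≠ 0 := by positivity
  have hnk : (n : ℚ) + (k + 1) ≠ 0 := by positivity
  have e1 : B n (k + 1) = B n k * ((n - k) * (n + k + 1)) / ((2 * k + 1) * (2 * k + 2)) := by
    rw [eq_div_iff (by positivity), h1]
  have e2 : ((k + 1).centralBinom : ℚ) = 2 * (2 * k + 1) * (k.centralBinom : ℚ) / (k + 1) := by
    rw [eq_div_iff hk1, h2]
  have e3 : A n (k + 1) = 2 * n * B n (k + 1) / (n + (k + 1)) := by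
    rw [eq_div_iff hnk, mul_comm]
    push_cast at h0
    exact h0
  rw [e3, e1, e2]
  field_simp
  ring

/-- the main formula for the coefficients of `2 cos 2nθ` -/
theorem A_prod {n k : ℕ} (hk : k + 1 ≤ n) :
    (-1) ^ (k + 1) * A n (k + 1) * ((k + 1) ^ 2 * (k + 1).centralBinom)
      = - (2 * n ^ 2 * ∏ j ∈ range k, (1 - (n : ℚ) ^ 2 / (j + 1) ^ 2)) := by
  have h1 := A_succ hk
  have h2 := prodA n k
  calc (-1) ^ (k + 1) * A n (k + 1) * ((k + 1) ^ 2 * (k + 1).centralBinom)
      = (-1) ^ (k + 1) * (A n (k + 1) * ((k + 1) ^ 2 * (k + 1).centralBinom)) := by ring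
    _ = - (2 * n * ((-1) ^ k * (n - k) * B n k * k.centralBinom)) := by rw [h1]; ring
    _ = _ := by rw [h2]; ring

/-- the coefficients for `p = 2 n + 1` -/
theorem prodB (n k : ℕ) : (-1) ^ k * B n k
    = k.centralBinom / 16 ^ k * ∏ j ∈ range k, (1 - ((2 * n + 1 : ℕ) : ℚ) ^ 2 / (2 * j + 1) ^ 2) := by
  induction k with
  | zero => simp [B_zero]
  | succ k ih =>
    rw [Finset.prod_range_succ]
    have h1 := B_succ n k
    have h2 := c_succ k
    have hk1 : (k : ℚ) + 1 ≠ 0 := by positivity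
    have hk2 : 2 * (k : ℚ) + 1 ≠ 0 := by positivity
    have e1 : B n (k + 1) = B n k * ((n - k) * (n + k + 1)) / ((2 * k + 1) * (2 * k + 2)) := by
      rw [eq_div_iff (by positivity), h1]
    have e2 : ((k + 1).centralBinom : ℚ) = 2 * (2 * k + 1) * (k.centralBinom : ℚ) / (k + 1) := by
      rw [eq_div_iff hk1, h2]
    set R := ∏ j ∈ range k, (1 - ((2 * n + 1 : ℕ) : ℚ) ^ 2 / (2 * j + 1) ^ 2) with hR
    calc (-1) ^ (k + 1) * B n (k + 1) = - ((-1) ^ k * B n k) * ((n - k) * (n + k + 1)) / ((2 * k + 1) * (2 * k + 2)) := by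
          rw [e1]; ring
      _ = - (k.centralBinom / 16 ^ k * R) * ((n - k) * (n + k + 1)) / ((2 * k + 1) * (2 * k + 2)) := by rw [ih]
      _ = _ := by
          rw [e2]
          push_cast
          field_simp
          ring

end Q279.CB
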