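import Pool.Agent.Q279.CB.Sums

/-!
# Fibonacci and Lucas numbers
-/

set_option autoImplicit false

namespace Q279.CB

open Finset Q279.BA

/-- Lucas numbers -/
def lucas : ℕ → ℤ
  | 0 => 2
  | 1 => 1
  | n + 2 => lucas (n + 1) + lucas n

/-- Fibonacci numbers as integers -/
def F (n : ℕ) : ℤ := (Nat.fib n : ℤ)

theorem F_rec (n : ℕ) : F (n + 2) = F (n + 1) + F n := by
  unfold F
  rw [Nat.fib_add_two]
  push_cast
  ring

theorem L_rec (n : ℕ) : lucas (n + 2) = lucas (n + 1) + lucas n := rfl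

theorem F_four (n : ℕ) : F (n + 4) = 3 * F (n + 2) - F n := by
  have h1 := F_rec n
  have h2 := F_rec (n + 1)
  have h3 := F_rec (n + 2)
  simp only [add_assoc, Nat.reduceAdd] at *
  linarith

theorem L_four (n : ℕ) : lucas (n + 4) = 3 * lucas (n + 2) - lucas n := by
  have h1 := L_rec n
  have h2 := L_rec (n + 1)
  have h3 := L_rec (n + 2)
  simp only [add_assoc, Nat.reduceAdd] at *
  linarith

theorem L_eq (n : ℕ) : lucas n = 2 * F (n + 1) - F n ∧ lucas (n + 1) = 2 * F (n + 2) - F (n + 1) := by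
  induction n with
  | zero => simp [lucas, F]
  | succ n ih =>
    refine ⟨ih.2, ?_⟩
    rw [L_rec, ih.1, ih.2, F_rec (n + 1), F_rec n]
    ring

theorem cassini (n : ℕ) : F (n + 1) ^ 2 - F n * F (n + 1) - F n ^ 2 = (-1) ^ n := by
  induction n with
  | zero => simp [F]
  | succ n ih =>
    rw [F_rec, pow_succ (-1 : ℤ) n, ← ih]
    ring

theorem F_double (n : ℕ) : F (2 * n) = F n * lucas n := by
  rw [(L_eq n).1]
  unfold F
  rw [Nat.fib_two_mul, Nat.cast_mul, Nat.cast_sub]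
  · push_cast
    ring
  · have := Nat.fib_le_fib_succ (n := n)
    omega

theorem L_double (n : ℕ) : lucas (2 * n) = lucas n ^ 2 - 2 * (-1) ^ n := by
  rw [(L_eq (2 * n)).1, F_double, ← cassini, (L_eq n).1]
  have : F (2 * n + 1) = F (n + 1) ^ 2 + F n ^ 2 := by
    unfold F
    rw [Nat.fib_two_mul_add_one]
    push_cast
    ring
  rw [this]
  ring

/-- `(p / 5)` -/
def eps (p : ℕ) : ℤ := jacobiSym p 5

theorem eps_val (p s : ℕ) (h : p % 5 = s) : eps p = jacobiSym s 5 := by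
  unfold eps
  rw [jacobiSym.mod_left, ← h]
  push_cast
  rfl

theorem J1 : jacobiSym ((1 : ℕ) : ℤ) 5 = 1 := by norm_num
theorem J2 : jacobiSym ((2 : ℕ) : ℤ) 5 = -1 := by norm_num
theorem J3 : jacobiSym ((3 : ℕ) : ℤ) 5 = -1 := by norm_num
theorem J4 : jacobiSym ((4 : ℕ) : ℤ) 5 = 1 := by norm_num

theorem five_mul {u : ℕ → ℤ} (hu : ∀ k, u (k + 2) = 3 * u (k + 1) - u k) (m s : ℕ) :
    P u (5 * m + s) = (-1) ^ m * P u s ∧ Q u (5 * m + s) = (-1) ^ m * Q u s := by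
  induction m with
  | zero => simp
  | succ m ih =>
    obtain ⟨h1, h2⟩ := five hu (5 * m + s)
    have e : 5 * (m + 1) + s = 5 * m + s + 5 := by ring
    rw [e, h1, h2, ih.1, ih.2, pow_succ]
    constructor <;> ring

/-- the sequence `F (2k + 1)` and the others -/
theorem uF (i : ℕ) : ∀ k, (fun k => F (2 * k + i)) (k + 2) = 3 * (fun k => F (2 * k + i)) (k + 1) - (fun k => F (2 * k + i)) k := by
  intro k
  have := F_four (2 * k + i)
  have e1 : 2 * (k + 2) + i = 2 * k + i + 4 := by ring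
  have e2 : 2 * (k + 1) + i = 2 * k + i + 2 := by ring
  show F (2 * (k + 2) + i) = 3 * F (2 * (k + 1) + i) - F (2 * k + i)
  rw [e1, e2]
  exact this

theorem uL (i : ℕ) : ∀ k, (fun k => lucas (2 * k + i)) (k + 2) = 3 * (fun k => lucas (2 * k + i)) (k + 1) - (fun k => lucas (2 * k + i)) k := by
  intro k
  have := L_four (2 * k + i)
  have e1 : 2 * (k + 2) + i = 2 * k + i + 4 := by ring
  have e2 : 2 * (k + 1) + i = 2 * k + i + 2 := by ring
  show lucas (2 * (k + 2) + i) = 3 * lucas (2 * (k + 1) + i) - lucas (2 * k + i)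
  rw [e1, e2]
  exact this

theorem negsq (m : ℕ) : ((-1 : ℤ)) ^ m * (-1) ^ m = 1 := by
  rw [← mul_pow]
  simp

/-- values of the alternating sums at `n = (p - 1) / 2` -/
theorem W_vals {u : ℕ → ℤ} (hu : ∀ k, u (k + 2) = 3 * u (k + 1) - u k) (n : ℕ) (h : ¬ 5 ∣ 2 * n + 1) :
    (eps (2 * n + 1) = 1 ∧ P u n + 2 * Q u n = (-1) ^ n * u 0) ∨
    (eps (2 * n + 1) = -1 ∧ P u n + 2 * Q u n = (-1) ^ n * (u 1 - 3 * u 0)) := by
  obtain ⟨⟨a1, a2⟩, ⟨b1, b2⟩, ⟨c1, c2⟩, ⟨d1, d2⟩, ⟨e1, e2⟩⟩ := vals hu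
  obtain ⟨m, s, hs, hn⟩ : ∃ m s, s < 5 ∧ n = 5 * m + s := ⟨n / 5, n % 5, Nat.mod_lt _ (by norm_num), by omega⟩
  subst hn
  obtain ⟨h1, h2⟩ := five_mul hu m s
  rw [h1, h2]
  have hpow : ((-1 : ℤ)) ^ (5 * m + s) = (-1) ^ m * (-1) ^ s := by
    rw [pow_add, pow_mul]
    norm_num
  rw [hpow]
  interval_cases s
  · left
    refine ⟨?_, ?_⟩
    · rw [eps_val _ 1 (by omega), J1]
    · rw [a1, a2]; ring
  · right
    refine ⟨?_, ?_⟩
    · rw [eps_val _ 3 (by omega), J3]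
    · rw [b1, b2]; ring
  · exfalso; apply h; omega
  · right
    refine ⟨?_, ?_⟩
    · rw [eps_val _ 2 (by omega), J2]
    · rw [d1, d2]; ring
  · left
    refine ⟨?_, ?_⟩
    · rw [eps_val _ 4 (by omega), J4]
    · rw [e1, e2]; ring

/-- values of the alternating sums at `p` and `p - 1` -/
theorem E_vals {u : ℕ → ℤ} (hu : ∀ k, u (k + 2) = 3 * u (k + 1) - u k) (n : ℕ) (h : ¬ 5 ∣ 2 * n + 1) :
    (eps (2 * n + 1) = 1 ∧ P u (2 * n + 1) + P u (2 * n) = 2 * u 0 - u 1) ∨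
    (eps (2 * n + 1) = -1 ∧ P u (2 * n + 1) + P u (2 * n) = u 1 - u 0) := by
  obtain ⟨⟨a1, a2⟩, ⟨b1, b2⟩, ⟨c1, c2⟩, ⟨d1, d2⟩, ⟨e1, e2⟩⟩ := vals hu
  obtain ⟨m, s, hs, hn⟩ : ∃ m s, s < 5 ∧ n = 5 * m + s := ⟨n / 5, n % 5, Nat.mod_lt _ (by norm_num), by omega⟩
  subst hn
  interval_cases s
  · left
    refine ⟨?_, ?_⟩
    · rw [eps_val _ 1 (by omega), J1]
    · rw [show 2 * (5 * m + 0) + 1 = 5 * (2 * m) + 1 by ring, show 2 * (5 * m + 0) = 5 * (2 * m) + 0 by ring,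
        (five_mul hu (2 * m) 1).1, (five_mul hu (2 * m) 0).1, pow_mul, a1, b1]
      norm_num
      ring
  · right
    refine ⟨?_, ?_⟩
    · rw [eps_val _ 3 (by omega), J3]
    · rw [show 2 * (5 * m + 1) + 1 = 5 * (2 * m) + 3 by ring, show 2 * (5 * m + 1) = 5 * (2 * m) + 2 by ring,
        (five_mul hu (2 * m) 3).1, (five_mul hu (2 * m) 2).1, pow_mul, c1, d1]
      norm_num
  · exfalso; apply h; omega
  · right
    refine ⟨?_, ?_⟩
    · rw [eps_val _ 2 (by omega), J2]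
    · rw [show 2 * (5 * m + 3) + 1 = 5 * (2 * m + 1) + 2 by ring, show 2 * (5 * m + 3) = 5 * (2 * m + 1) + 1 by ring,
        (five_mul hu (2 * m + 1) 2).1, (five_mul hu (2 * m + 1) 1).1, pow_succ, pow_mul, c1, b1]
      norm_num
  · left
    refine ⟨?_, ?_⟩
    · rw [eps_val _ 4 (by omega), J4]
    · rw [show 2 * (5 * m + 4) + 1 = 5 * (2 * m + 1) + 4 by ring, show 2 * (5 * m + 4) = 5 * (2 * m + 1) + 3 by ring,
        (five_mul hu (2 * m + 1) 4).1, (five_mul hu (2 * m + 1) 3).1, pow_succ, pow_mul, e1, d1]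
      norm_num
      ring

end Q279.CB
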