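import Pool.Agent.Q279.CB.Fib

/-!
# The four congruences
-/

set_option autoImplicit false

namespace Q279.CB

open Finset Q279.BA

variable {p : ℕ} [hp : Fact p.Prime]

theorem eps_sq {n : ℕ} (h : ¬ 5 ∣ 2 * n + 1) : eps (2 * n + 1) = 1 ∨ eps (2 * n + 1) = -1 := by
  rcases W_vals (u := fun k => F (2 * k + 1)) (uF 1) n h with h | h
  · exact Or.inl h.1
  · exact Or.inr h.1

theorem W_F {n : ℕ} (h : ¬ 5 ∣ 2 * n + 1) :
    P (fun k => F (2 * k + 1)) n + 2 * Q (fun k => F (2 * k + 1)) n = (-1) ^ n * eps (2 * n + 1) := by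
  rcases W_vals (u := fun k => F (2 * k + 1)) (uF 1) n h with ⟨h1, h2⟩ | ⟨h1, h2⟩
  · rw [h2, h1]; simp [F]
  · rw [h2, h1]
    have : F (2 * 1 + 1) - 3 * F (2 * 0 + 1) = -1 := by simp [F, Nat.fib]
    rw [this]

theorem W_L {n : ℕ} (h : ¬ 5 ∣ 2 * n + 1) :
    P (fun k => lucas (2 * k + 1)) n + 2 * Q (fun k => lucas (2 * k + 1)) n = (-1) ^ n := by
  rcases W_vals (u := fun k => lucas (2 * k + 1)) (uL 1) n h with ⟨h1, h2⟩ | ⟨h1, h2⟩
  · rw [h2]; simp [lucas]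
  · rw [h2]
    have : lucas (2 * 1 + 1) - 3 * lucas (2 * 0 + 1) = 1 := by simp [lucas]
    rw [this, mul_one]

theorem E_F {n : ℕ} (h : ¬ 5 ∣ 2 * n + 1) :
    P (fun k => F (2 * k + 0)) (2 * n + 1) + P (fun k => F (2 * k + 0)) (2 * n) = - eps (2 * n + 1) := by
  rcases E_vals (u := fun k => F (2 * k + 0)) (uF 0) n h with ⟨h1, h2⟩ | ⟨h1, h2⟩
  · rw [h2, h1]; simp [F]
  · rw [h2, h1]; simp [F]

theorem E_L {n : ℕ} (h : ¬ 5 ∣ 2 * n + 1) :
    P (fun k => lucas (2 * k + 0)) (2 * n + 1) + P (fun k => lucas (2 * k + 0)) (2 * n) = 1 := by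
  rcases E_vals (u := fun k => lucas (2 * k + 0)) (uL 0) n h with ⟨h1, h2⟩ | ⟨h1, h2⟩
  · rw [h2]; simp [lucas]
  · rw [h2]; simp [lucas]

/-- the arithmetic of `F_p` and `L_p` -/
theorem arith {n : ℕ} (hn : p = 2 * n + 1) (h5 : ¬ 5 ∣ p) :
    ∃ a f z : ℤ, F p = eps p * a ∧ lucas p = a + 2 * f ∧ F ((p : ℤ) - eps p).toNat = f ∧ (p : ℤ) ∣ f ∧
      (p : ℤ) ^ 4 ∣ z ∧ 8 * a = 8 + 4 * f + 5 * f ^ 2 - z ∧ a ^ 2 = a * f + f ^ 2 + 1 := by
  have h5' : ¬ 5 ∣ 2 * n + 1 := hn ▸ h5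
  have hp2 : p ≠ 2 := by omega
  have hpos := hp.out.pos
  have heps : eps p = 1 ∨ eps p = -1 := by
    have := eps_sq h5'
    rwa [← hn] at this
  have hee : eps p * eps p = 1 := by rcases heps with h | h <;> rw [h] <;> norm_num
  have m1 := W_mod (p := p) (fun k => F (2 * k + 1)) n hn
  have m2 := W_mod (p := p) (fun k => lucas (2 * k + 1)) n hn
  rw [W_F h5'] at m1
  rw [W_L h5'] at m2
  simp only [← hn] at m1 m2
  have k1 : (p : ℤ) ∣ eps p - F p := by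
    have := Dvd.dvd.mul_left m1 ((-1) ^ n)
    have e : (-1 : ℤ) ^ n * ((-1) ^ n * eps p - (-1) ^ n * F p) = (-1) ^ n * (-1) ^ n * (eps p - F p) := by ring
    rw [e, negsq, one_mul] at this
    exact this
  have k2 : (p : ℤ) ∣ 1 - lucas p := by
    have := Dvd.dvd.mul_left m2 ((-1) ^ n)
    have e : (-1 : ℤ) ^ n * ((-1) ^ n - (-1) ^ n * lucas p) = (-1) ^ n * (-1) ^ n * (1 - lucas p) := by ring
    rw [e, negsq, one_mul] at this
    exact this
  -- the index `p - ε`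
  have hf : 2 * F ((p : ℤ) - eps p).toNat = lucas p - eps p * F p := by
    have hL := (L_eq p).1
    have hr := F_rec (p - 1)
    rw [show p - 1 + 2 = p + 1 by omega, show p - 1 + 1 = p by omega] at hr
    rcases heps with h | h
    · rw [h, show ((p : ℤ) - 1).toNat = p - 1 by omega, hL]
      linarith
    · rw [h, show ((p : ℤ) - -1).toNat = p + 1 by omega, hL]
      linarith
  set f := F ((p : ℤ) - eps p).toNat with hfdef
  have hodd : Odd p := ⟨n, hn⟩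
  have hc : lucas p ^ 2 - 5 * F p ^ 2 = -4 := by
    have := cassini p
    rw [hodd.neg_one_pow] at this
    rw [(L_eq p).1]
    linear_combination 4 * this
  set a := eps p * F p with hadef
  have hFa : F p = eps p * a := by rw [hadef, ← mul_assoc, hee, one_mul]
  have hLa : lucas p = a + 2 * f := by linarith
  have ha2 : a ^ 2 = F p ^ 2 := by rw [hadef, mul_pow, sq (eps p), hee, one_mul]
  have hq : a ^ 2 = a * f + f ^ 2 + 1 := by
    rw [hLa, ← ha2] at hc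
    linarith
  have hY : (2 * a - f) ^ 2 = 5 * f ^ 2 + 4 := by linear_combination 4 * hq
  have ka : (p : ℤ) ∣ 1 - a := by
    have := Dvd.dvd.mul_left k1 (eps p)
    rwa [mul_sub, hee] at this
  have h2f : (p : ℤ) ∣ 2 * f := by
    have : 2 * f = (1 - a) - (1 - lucas p) := by linarith
    rw [this]
    exact dvd_sub ka k2
  have hprime : Prime (p : ℤ) := Nat.prime_iff_prime_int.1 hp.out
  have hp2' : ¬ (p : ℤ) ∣ 2 := by
    intro h
    have h1 : p ∣ 2 := by exact_mod_cast h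
    exact hp2 ((Nat.prime_dvd_prime_iff_eq hp.out Nat.prime_two).1 h1)
  have kf : (p : ℤ) ∣ f := (hprime.dvd_or_dvd h2f).resolve_left hp2'
  have kY : (p : ℤ) ∣ 2 * a - f - 2 := by
    have : 2 * a - f - 2 = -2 * (1 - a) - f := by ring
    rw [this]
    exact dvd_sub (Dvd.dvd.mul_left ka _) kf
  have kY2 : ¬ (p : ℤ) ∣ 2 * a - f + 2 := by
    intro h
    have h1 : (p : ℤ) ∣ 2 * 2 := by
      have : (2 : ℤ) * 2 = (2 * a - f + 2) - (2 * a - f - 2) := by ring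
      rw [this]
      exact dvd_sub h kY
    rcases hprime.dvd_or_dvd h1 with h2 | h2 <;> exact hp2' h2
  have kp2 : (p : ℤ) ^ 2 ∣ 2 * a - f - 2 := by
    have h1 : (p : ℤ) ^ 2 ∣ (2 * a - f - 2) * (2 * a - f + 2) := by
      have : (2 * a - f - 2) * (2 * a - f + 2) = 5 * f ^ 2 := by linear_combination hY
      rw [this]
      exact Dvd.dvd.mul_left (pow_dvd_pow_of_dvd kf 2) 5
    have h2 : IsCoprime ((p : ℤ) ^ 2) (2 * a - f + 2) := by
      apply IsCoprime.pow_left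
      exact (hprime.coprime_iff_not_dvd).2 kY2
    exact h2.dvd_of_dvd_mul_right h1
  refine ⟨a, f, (2 * a - f - 2) ^ 2, hFa, hLa, rfl, kf, ?_, ?_, hq⟩
  · have := pow_dvd_pow_of_dvd kp2 2
    rwa [← pow_mul] at this
  · linear_combination hY

theorem D_eight (hp2 : p ≠ 2) : D p 0 (1 / ((16 : ℕ) : ℚ)) := by
  have h1 : ¬ p ∣ 16 := by
    intro h
    have : p ∣ 2 ^ 4 := h
    exact hp2 ((Nat.prime_dvd_prime_iff_eq hp.out Nat.prime_two).1 (hp.out.dvd_of_dvd_pow this))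
  exact D.inv h1

theorem main (hp2 : p ≠ 2) (hp5 : p ≠ 5) (q : ℚ) (hq : q = (F ((p : ℤ) - eps p).toNat : ℚ) / p) :
    D p 2 (p * ∑ k ∈ Ico 1 p, (F (2 * k) : ℚ) / ((k : ℚ) ^ 2 * k.centralBinom)
      - -(eps p * (3 * q / 2 + 5 * p * q ^ 2 / 4))) ∧
    D p 2 (p * ∑ k ∈ Ico 1 p, (lucas (2 * k) : ℚ) / ((k : ℚ) ^ 2 * k.centralBinom)
      - (-(5 * q / 2) - 15 * p * q ^ 2 / 4)) ∧
    D p 2 (∑ k ∈ range ((p - 1) / 2), (k.centralBinom : ℚ) * F (2 * k + 1) / ((2 * k + 1) * 16 ^ k)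
      - (-1) ^ ((p + 1) / 2) * eps p * (q / 2 + 5 * p * q ^ 2 / 8)) ∧
    D p 2 (∑ k ∈ range ((p - 1) / 2), (k.centralBinom : ℚ) * lucas (2 * k + 1) / ((2 * k + 1) * 16 ^ k)
      - (-1) ^ ((p + 1) / 2) * (5 * q / 2 + 5 * p * q ^ 2 / 8)) := by
  have hodd : Odd p := hp.out.odd_of_ne_two hp2
  obtain ⟨n, hn⟩ := hodd
  have h5 : ¬ 5 ∣ p := by
    intro h
    exact hp5 ((Nat.prime_dvd_prime_iff_eq Nat.prime_five hp.out).1 h).symm
  have h5' : ¬ 5 ∣ 2 * n + 1 := hn ▸ h5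
  obtain ⟨a, f, z, hF, hL, hf, ⟨g, hg⟩, ⟨w, hw⟩, h8, hsq⟩ := arith (p := p) hn h5
  have hp0 : (p : ℚ) ≠ 0 := p_ne'
  have heps : eps p = 1 ∨ eps p = -1 := by
    have := eps_sq h5'
    rwa [← hn] at this
  have hqg : q = (g : ℚ) := by
    rw [hq, hf, hg]
    push_cast
    field_simp
  rw [hqg]
  have h16 := D_eight (p := p) hp2
  have ha : (a : ℚ) = (8 + 4 * (p * g) + 5 * (p * g) ^ 2 - p ^ 4 * w) / 8 := by
    have : (8 : ℚ) * a = 8 + 4 * (p * g) + 5 * (p * g) ^ 2 - p ^ 4 * w := by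
      rw [hg, hw] at h8
      exact_mod_cast h8
    linarith
  have hsq' : (a : ℚ) ^ 2 = a * (p * g) + (p * g) ^ 2 + 1 := by
    rw [hg] at hsq
    exact_mod_cast hsq
  have hn1 : (p - 1) / 2 = n := by omega
  have hn2 : (p + 1) / 2 = n + 1 := by omega
  rw [hn1, hn2]
  have D2 := D.ppow (p := p) 2
  refine ⟨?_, ?_, ?_, ?_⟩
  · have h := sum1 (p := p) hp2 (fun k => F (2 * k + 0))
    have hE := E_F h5'
    rw [← hn] at hE
    have hpn : p - 1 = 2 * n := by omega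
    rw [hpn, hE] at h
    simp only [add_zero] at h
    rw [F_double p, hF, hL] at h
    have e : (p : ℚ) * ∑ k ∈ Ico 1 p, (F (2 * k) : ℚ) / ((k : ℚ) ^ 2 * k.centralBinom)
        - -(eps p * (3 * g / 2 + 5 * p * g ^ 2 / 4))
        = (p * ∑ k ∈ Ico 1 p, (F (2 * k) : ℚ) / ((k : ℚ) ^ 2 * k.centralBinom)
        - (2 * (F (2 * 0) : ℚ) - ((eps p * a * (a + 2 * f) : ℤ) : ℚ) - ((-eps p : ℤ) : ℚ)) / (2 * p))
        + (p : ℚ) ^ 2 * ((eps p : ℚ) * (-(g * (15 * g ^ 2 - 3 * p ^ 2 * w) : ℤ)) * (1 / ((16 : ℕ) : ℚ))) := by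
      have h0 : F (2 * 0) = 0 := by simp [F]
      rw [h0, hg]
      push_cast
      have e1 : ((eps p : ℚ) * a * (a + 2 * (p * g))) = eps p * (3 * a * (p * g) + (p * g) ^ 2 + 1) := by
        linear_combination (eps p : ℚ) * hsq'
      rw [e1, ha]
      field_simp
      ring
    rw [e]
    refine h.add (D2.mul0' ((((D.int _)).mul0 ?_).mul0 h16))
    have := D.int (p := p) (-(g * (15 * g ^ 2 - 3 * p ^ 2 * w)))
    push_cast at this ⊢
    exact this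
  · have h := sum1 (p := p) hp2 (fun k => lucas (2 * k + 0))
    have hE := E_L h5'
    rw [← hn] at hE
    have hpn : p - 1 = 2 * n := by omega
    rw [hpn, hE] at h
    simp only [add_zero] at h
    have hodd' : Odd p := ⟨n, hn⟩
    rw [L_double p, hodd'.neg_one_pow, hL] at h
    have e : (p : ℚ) * ∑ k ∈ Ico 1 p, (lucas (2 * k) : ℚ) / ((k : ℚ) ^ 2 * k.centralBinom)
        - (-(5 * (g : ℚ) / 2) - 15 * p * g ^ 2 / 4)
        = (p * ∑ k ∈ Ico 1 p, (lucas (2 * k) : ℚ) / ((k : ℚ) ^ 2 * k.centralBinom)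
        - (2 * (lucas (2 * 0) : ℚ) - (((a + 2 * f) ^ 2 - 2 * -1 : ℤ) : ℚ) - ((1 : ℤ) : ℚ)) / (2 * p))
        + (p : ℚ) ^ 2 * ((-(5 * g * (5 * g ^ 2 - p ^ 2 * w)) : ℤ) * (1 / ((16 : ℕ) : ℚ))) := by
      have h0 : lucas (2 * 0) = 2 := rfl
      rw [h0, hg]
      push_cast
      have e1 : (((a : ℚ) + 2 * (p * g)) ^ 2 - -2) = 5 * a * (p * g) + 5 * (p * g) ^ 2 + 3 := by
        linear_combination hsq'
      rw [e1, ha]
      field_simp
      ring
    rw [e]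
    exact h.add (D2.mul0' ((D.int _).mul0 h16))
  · have h := sum2 (p := p) (fun k => F (2 * k + 1)) n hn
    rw [W_F h5'] at h
    simp only [← hn] at h
    rw [hF] at h
    have e : ∑ k ∈ range n, (k.centralBinom : ℚ) * F (2 * k + 1) / ((2 * k + 1) * 16 ^ k)
      - (-1) ^ (n + 1) * eps p * (g / 2 + 5 * p * g ^ 2 / 8)
      = (∑ k ∈ range n, (k.centralBinom : ℚ) * F (2 * k + 1) / ((2 * k + 1) * 16 ^ k)
      - ((((-1) ^ n * eps p : ℤ) : ℚ) - (-1) ^ n * ((eps p * a : ℤ) : ℚ)) / p)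
      + (p : ℚ) ^ 2 * ((((-1) ^ n * eps p * (2 * p * w) : ℤ) : ℚ) * (1 / ((16 : ℕ) : ℚ))) := by
      push_cast
      rw [ha]
      field_simp
      ring
    rw [e]
    exact h.add (D2.mul0' ((D.int _).mul0 h16))
  · have h := sum2 (p := p) (fun k => lucas (2 * k + 1)) n hn
    rw [W_L h5'] at h
    simp only [← hn] at h
    rw [hL] at h
    have e : ∑ k ∈ range n, (k.centralBinom : ℚ) * lucas (2 * k + 1) / ((2 * k + 1) * 16 ^ k)
      - (-1) ^ (n + 1) * (5 * g / 2 + 5 * p * g ^ 2 / 8)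
      = (∑ k ∈ range n, (k.centralBinom : ℚ) * lucas (2 * k + 1) / ((2 * k + 1) * 16 ^ k)
      - ((((-1) ^ n : ℤ) : ℚ) - (-1) ^ n * ((a + 2 * f : ℤ) : ℚ)) / p)
      + (p : ℚ) ^ 2 * ((((-1) ^ n * (2 * p * w) : ℤ) : ℚ) * (1 / ((16 : ℕ) : ℚ))) := by
      rw [hg]
      push_cast
      rw [ha]
      field_simp
      ring
    rw [e]
    exact h.add (D2.mul0' ((D.int _).mul0 h16))

end Q279.CB
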