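import Mathlib

/-!
# Sums of binomial coefficients `C(n+k, 2k)` against Fibonacci-type sequences
-/

set_option autoImplicit false

namespace Q279.CB

open Finset

/-- `∑ (-1)^k C(n+k, 2k) u_k` -/
def P (u : ℕ → ℤ) (n : ℕ) : ℤ := ∑ k ∈ range (n + 1), (-1) ^ k * ((n + k).choose (2 * k) : ℤ) * u k

/-- `∑ (-1)^k C(n+k, 2k+1) u_k` -/
def Q (u : ℕ → ℤ) (n : ℕ) : ℤ := ∑ k ∈ range (n + 1), (-1) ^ k * ((n + k).choose (2 * k + 1) : ℤ) * u k

/-- the shift -/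
def S (u : ℕ → ℤ) : ℕ → ℤ := fun k => u (k + 1)

theorem P_ext (u : ℕ → ℤ) (n M : ℕ) (h : n + 1 ≤ M) :
    P u n = ∑ k ∈ range M, (-1) ^ k * ((n + k).choose (2 * k) : ℤ) * u k := by
  unfold P
  refine Finset.sum_subset (Finset.range_mono h) fun k _ hk => ?_
  rw [Finset.mem_range, not_lt] at hk
  rw [Nat.choose_eq_zero_of_lt (by omega)]
  simp

theorem Q_ext (u : ℕ → ℤ) (n M : ℕ) (h : n + 1 ≤ M) :
    Q u n = ∑ k ∈ range M, (-1) ^ k * ((n + k).choose (2 * k + 1) : ℤ) * u k := by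
  unfold Q
  refine Finset.sum_subset (Finset.range_mono h) fun k _ hk => ?_
  rw [Finset.mem_range, not_lt] at hk
  rw [Nat.choose_eq_zero_of_lt (by omega)]
  simp

theorem Q_succ (u : ℕ → ℤ) (n : ℕ) : Q u (n + 1) = P u n + Q u n := by
  rw [P_ext u n (n + 2) (by omega), Q_ext u n (n + 2) (by omega), Q_ext u (n + 1) (n + 2) (by omega),
    ← Finset.sum_add_distrib]
  refine Finset.sum_congr rfl fun k _ => ?_
  have e : n + 1 + k = (n + k) + 1 := by omega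
  rw [e, Nat.choose_succ_succ']
  push_cast
  ring

theorem P_succ (u : ℕ → ℤ) (n : ℕ) : P u (n + 1) = P u n - Q (S u) (n + 1) := by
  rw [P_ext u n (n + 3) (by omega), P_ext u (n + 1) (n + 3) (by omega), Q_ext (S u) (n + 1) (n + 2) (by omega),
    Finset.sum_range_succ' _ (n + 2), Finset.sum_range_succ' _ (n + 2)]
  have e : ∀ k, (-1) ^ (k + 1) * ((n + 1 + (k + 1)).choose (2 * (k + 1)) : ℤ) * u (k + 1)
      = (-1) ^ (k + 1) * ((n + (k + 1)).choose (2 * (k + 1)) : ℤ) * u (k + 1)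
      - (-1) ^ k * ((n + 1 + k).choose (2 * k + 1) : ℤ) * S u k := by
    intro k
    have e1 : n + 1 + (k + 1) = (n + 1 + k) + 1 := by omega
    have e2 : 2 * (k + 1) = (2 * k + 1) + 1 := by omega
    have e3 : n + (k + 1) = n + 1 + k := by omega
    rw [e1, e2, Nat.choose_succ_succ', e3]
    unfold S
    push_cast
    ring
  rw [Finset.sum_congr rfl fun k _ => e k, Finset.sum_sub_distrib]
  simp only [mul_zero, Nat.choose_zero_right, pow_zero, Nat.cast_one]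
  ring

theorem P_zero (u : ℕ → ℤ) : P u 0 = u 0 := by
  simp [P]

theorem Q_zero (u : ℕ → ℤ) : Q u 0 = 0 := by
  simp [Q]

variable {u : ℕ → ℤ}

theorem Q_SS (hu : ∀ k, u (k + 2) = 3 * u (k + 1) - u k) (n : ℕ) :
    Q (S (S u)) n = 3 * Q (S u) n - Q u n := by
  unfold Q S
  rw [Finset.mul_sum, ← Finset.sum_sub_distrib]
  refine Finset.sum_congr rfl fun k _ => ?_
  have : u (k + 1 + 1) = 3 * u (k + 1) - u k := hu k
  rw [this]
  ring

theorem step (hu : ∀ k, u (k + 2) = 3 * u (k + 1) - u k) (n : ℕ) :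
    Q u (n + 1) = P u n + Q u n ∧ Q (S u) (n + 1) = P (S u) n + Q (S u) n ∧
    P u (n + 1) = P u n - (P (S u) n + Q (S u) n) ∧
    P (S u) (n + 1) = P (S u) n - 3 * (P (S u) n + Q (S u) n) + (P u n + Q u n) := by
  have h1 := Q_succ u n
  have h2 := Q_succ (S u) n
  have h3 := P_succ u n
  have h4 := P_succ (S u) n
  have h5 := Q_SS hu (n + 1)
  refine ⟨h1, h2, ?_, ?_⟩ <;> linarith

theorem five (hu : ∀ k, u (k + 2) = 3 * u (k + 1) - u k) (n : ℕ) :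
    P u (n + 5) = - P u n ∧ Q u (n + 5) = - Q u n := by
  obtain ⟨a1, a2, a3, a4⟩ := step hu n
  obtain ⟨b1, b2, b3, b4⟩ := step hu (n + 1)
  obtain ⟨c1, c2, c3, c4⟩ := step hu (n + 2)
  obtain ⟨d1, d2, d3, d4⟩ := step hu (n + 3)
  obtain ⟨e1, e2, e3, e4⟩ := step hu (n + 4)
  simp only [add_assoc, Nat.reduceAdd] at *
  constructor <;> linarith

/-- values -/
theorem vals (hu : ∀ k, u (k + 2) = 3 * u (k + 1) - u k) :
    (P u 0 = u 0 ∧ Q u 0 = 0) ∧ (P u 1 = u 0 - u 1 ∧ Q u 1 = u 0) ∧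
    (P u 2 = 0 ∧ Q u 2 = 2 * u 0 - u 1) ∧
    (P u 3 = u 1 - u 0 ∧ Q u 3 = 2 * u 0 - u 1) ∧ (P u 4 = -u 0 ∧ Q u 4 = u 0) := by
  have z1 := P_zero u
  have z2 := Q_zero u
  have z3 := P_zero (S u)
  have z4 := Q_zero (S u)
  have z5 : S u 0 = u 1 := rfl
  obtain ⟨a1, a2, a3, a4⟩ := step hu 0
  obtain ⟨b1, b2, b3, b4⟩ := step hu (0 + 1)
  obtain ⟨c1, c2, c3, c4⟩ := step hu (0 + 2)
  obtain ⟨d1, d2, d3, d4⟩ := step hu (0 + 3)
  simp only [zero_add, add_assoc, Nat.reduceAdd] at *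
  refine ⟨⟨?_, ?_⟩, ⟨?_, ?_⟩, ⟨?_, ?_⟩, ⟨?_, ?_⟩, ⟨?_, ?_⟩⟩ <;> linarith

end Q279.CB
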