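import Pool.Agent.Q279.CB.Coef

/-!
# The two sums modulo `p ^ 2`
-/

set_option autoImplicit false

namespace Q279.CB

open Finset Q279.BA

variable {p : ℕ} [hp : Fact p.Prime]

theorem D_unit_inv {x : ℚ} (h : D p 1 (x - 1)) : D p 0 (1 / x) := by
  obtain ⟨a, b, hb, h1⟩ := h
  have hb0 := ne_zero_of_not_dvd hb
  set c : ℤ := b + p * a with hc
  have hx : x * b = (c : ℚ) := by rw [hc]; push_cast; linear_combination h1
  have hn : ¬ (p : ℤ) ∣ c := by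
    intro h2
    have h3 : (p : ℤ) ∣ (b : ℤ) := by
      have : (b : ℤ) = c - p * a := by rw [hc]; ring
      rw [this]
      exact dvd_sub h2 (Dvd.intro _ rfl)
    exact hb (Int.natCast_dvd_natCast.1 h3)
  have hc0 : (c : ℚ) ≠ 0 := by
    intro h2
    have : c = 0 := by exact_mod_cast h2
    exact hn (this ▸ dvd_zero _)
  have hx0 : x ≠ 0 := by
    intro h2
    rw [h2, zero_mul] at hx
    exact hc0 hx.symm
  refine ⟨Int.sign c * b, c.natAbs, ?_, ?_⟩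
  · intro h2
    exact hn (Int.natCast_dvd.2 h2)
  · have h3 : ((c.natAbs : ℕ) : ℚ) = ((Int.sign c * c : ℤ) : ℚ) := by
      rw [Int.sign_mul_self]
      simp
    rw [h3]
    push_cast
    rw [← hx]
    field_simp

omit hp in
theorem not_dvd_of_lt' {c : ℕ} (h0 : 0 < c) (h : c < p) : ¬ p ∣ c := fun h1 =>
  absurd (Nat.le_of_dvd h0 h1) (not_le.2 h)

theorem D_R {k : ℕ} (hk : k < p) : D p 2 (∏ j ∈ range k, (1 - (p : ℚ) ^ 2 / (j + 1) ^ 2) - 1) := by
  refine D.prod_one _ _ fun j hj => ?_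
  rw [Finset.mem_range] at hj
  have h1 : D p 0 (1 / ((j + 1 : ℕ) : ℚ)) := D.inv (not_dvd_of_lt' (by omega) (by omega))
  have e : 1 - (p : ℚ) ^ 2 / (j + 1) ^ 2 - 1 = -((p : ℚ) ^ 2 * (1 / ((j + 1 : ℕ) : ℚ)) ^ 2) := by
    push_cast
    rw [one_div_pow]
    ring
  rw [e]
  exact ((D.ppow 2).mul0' (h1.pow0 2)).neg

theorem D_R' {k : ℕ} (hk : 2 * k < p) : D p 2 (∏ j ∈ range k, (1 - (p : ℚ) ^ 2 / (2 * j + 1) ^ 2) - 1) := by
  refine D.prod_one _ _ fun j hj => ?_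
  rw [Finset.mem_range] at hj
  have h1 : D p 0 (1 / ((2 * j + 1 : ℕ) : ℚ)) := D.inv (not_dvd_of_lt' (by omega) (by omega))
  have e : 1 - (p : ℚ) ^ 2 / (2 * j + 1) ^ 2 - 1 = -((p : ℚ) ^ 2 * (1 / ((2 * j + 1 : ℕ) : ℚ)) ^ 2) := by
    push_cast
    rw [one_div_pow]
    ring
  rw [e]
  exact ((D.ppow 2).mul0' (h1.pow0 2)).neg

theorem p_ne' : (p : ℚ) ≠ 0 := by exact_mod_cast hp.out.ne_zero

theorem cb_ne (k : ℕ) : (k.centralBinom : ℚ) ≠ 0 := by
  exact_mod_cast Nat.centralBinom_ne_zero k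

theorem x_eq {j : ℕ} (hj : j + 1 < p) (hR : ∏ i ∈ range j, (1 - (p : ℚ) ^ 2 / (i + 1) ^ 2) ≠ 0) :
    (p : ℚ) / ((j + 1) ^ 2 * (j + 1).centralBinom)
      = (-1) ^ j * B p (j + 1) * (1 / ((p + (j + 1) : ℕ) : ℚ)) * (1 / ∏ i ∈ range j, (1 - (p : ℚ) ^ 2 / (i + 1) ^ 2)) := by
  have h1 := A_prod (n := p) (k := j) (by omega)
  have h2 := A_mul (n := p) (k := j + 1) (by omega) (by omega)
  have hp0 : (p : ℚ) ≠ 0 := p_ne'
  have hc := cb_ne (j + 1)
  have hj1 : (j : ℚ) + 1 ≠ 0 := by positivity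
  have hpj : (p : ℚ) + (j + 1) ≠ 0 := by positivity
  set R := ∏ i ∈ range j, (1 - (p : ℚ) ^ 2 / (i + 1) ^ 2) with hRdef
  have h3 : A p (j + 1) = 2 * p * B p (j + 1) / (p + (j + 1)) := by
    rw [eq_div_iff hpj, mul_comm]
    push_cast at h2
    exact h2
  rw [h3] at h1
  rw [div_eq_iff (mul_ne_zero (pow_ne_zero 2 hj1) hc)]
  field_simp at h1
  push_cast
  field_simp
  have e : ((-1 : ℚ)) ^ (j + 1) = - (-1) ^ j := by rw [pow_succ]; ring
  rw [e] at h1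
  linear_combination (1 : ℚ) * h1

theorem D_x {j : ℕ} (hj : j + 1 < p) : D p 0 ((p : ℚ) / ((j + 1) ^ 2 * (j + 1).centralBinom)) := by
  have hR := D_R (p := p) (k := j) (by omega)
  have hR1 := D_unit_inv (hR.mono (by omega))
  have hR0 : ∏ i ∈ range j, (1 - (p : ℚ) ^ 2 / (i + 1) ^ 2) ≠ 0 := by
    intro h
    rw [h] at hR
    have h2 : D p 2 ((-1 : ℤ) : ℚ) := by
      push_cast
      rwa [zero_sub] at hR
    have h3 := h2.dvd
    have h4 : (p : ℤ) ∣ 1 := by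
      have : (p : ℤ) ∣ (p : ℤ) ^ 2 := dvd_pow_self _ (by omega)
      exact (dvd_neg.1 (this.trans h3))
    have h5 : p ∣ 1 := by exact_mod_cast h4
    exact not_dvd_one' h5
  rw [x_eq hj hR0]
  have h1 : D p 0 (((-1 : ℚ)) ^ j) := by
    have := (D.int (p := p) (-1)).pow0 j
    push_cast at this
    exact this
  have h2 : D p 0 (B p (j + 1)) := D.nat _
  have h3 : D p 0 (1 / ((p + (j + 1) : ℕ) : ℚ)) := by
    refine D.inv fun h => ?_
    have := (Nat.dvd_add_right (dvd_refl p)).1 h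
    exact not_dvd_of_lt' (by omega) (by omega) this
  exact ((h1.mul0 h2).mul0 h3).mul0 hR1

theorem sum1 (hp2 : p ≠ 2) (u : ℕ → ℤ) :
    D p 2 (p * ∑ k ∈ Ico 1 p, (u k : ℚ) / ((k : ℚ) ^ 2 * k.centralBinom)
      - (2 * u 0 - u p - ((P u p + P u (p - 1) : ℤ) : ℚ)) / (2 * p)) := by
  have hpp := hp.out.two_le
  have hodd : Odd p := hp.out.odd_of_ne_two hp2
  have hp0 : (p : ℚ) ≠ 0 := p_ne'
  -- the sum over all indices
  have hE : ((P u p + P u (p - 1) : ℤ) : ℚ) = ∑ k ∈ range (p + 1), (-1) ^ k * A p k * u k := by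
    rw [P_ext u (p - 1) (p + 1) (by omega), P_ext u p (p + 1) (by omega), ← Finset.sum_add_distrib]
    push_cast
    refine Finset.sum_congr rfl fun k _ => ?_
    unfold A B
    ring
  have hA0 : A p 0 = 2 := by
    unfold A B
    norm_num
  have hAp : A p p = 1 := by
    have := A_mul (n := p) (k := p) (by omega) le_rfl
    unfold B at this
    rw [← two_mul, ← two_mul, Nat.choose_self] at this
    have h2 : (2 * (p : ℚ)) ≠ 0 := by positivity
    have h3 : 2 * (p : ℚ) * A p p = 2 * p * 1 := by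
      rw [this]
      norm_num
    exact mul_left_cancel₀ h2 h3
  have hsplit : ∑ k ∈ range (p + 1), (-1) ^ k * A p k * u k
      = 2 * u 0 - u p + ∑ j ∈ range (p - 1), (-1) ^ (j + 1) * A p (j + 1) * u (j + 1) := by
    rw [Finset.sum_range_succ, hAp, hodd.neg_one_pow]
    obtain ⟨m, hm⟩ : ∃ m, p = m + 1 := ⟨p - 1, by omega⟩
    have e : ∑ k ∈ range p, (-1) ^ k * A p k * (u k : ℚ)
        = ∑ j ∈ range (p - 1), (-1) ^ (j + 1) * A p (j + 1) * (u (j + 1) : ℚ) + (-1) ^ 0 * A p 0 * (u 0 : ℚ) := by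
      have h := Finset.sum_range_succ' (fun k => (-1) ^ k * A p k * (u k : ℚ)) (p - 1)
      rwa [show p - 1 + 1 = p by omega] at h
    rw [e, hA0]
    ring
  have hterm : ∀ j ∈ range (p - 1), (-1) ^ (j + 1) * A p (j + 1) * (u (j + 1) : ℚ)
      = - (2 * p) * ((p : ℚ) / ((j + 1) ^ 2 * (j + 1).centralBinom) *
        (∏ i ∈ range j, (1 - (p : ℚ) ^ 2 / (i + 1) ^ 2)) * u (j + 1)) := by
    intro j hj
    rw [Finset.mem_range] at hj
    have h1 := A_prod (n := p) (k := j) (by omega)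
    have hc := cb_ne (j + 1)
    have hj1 : (j : ℚ) + 1 ≠ 0 := by positivity
    have h2 : (-1) ^ (j + 1) * A p (j + 1) = - (2 * (p : ℚ) ^ 2 * ∏ i ∈ range j, (1 - (p : ℚ) ^ 2 / (i + 1) ^ 2))
        / ((j + 1) ^ 2 * (j + 1).centralBinom) := by
      rw [eq_div_iff (mul_ne_zero (pow_ne_zero 2 hj1) hc), h1]
    rw [h2]
    field_simp
  have hsum : ∑ k ∈ Ico 1 p, (u k : ℚ) / ((k : ℚ) ^ 2 * k.centralBinom)
      = ∑ j ∈ range (p - 1), (u (j + 1) : ℚ) / (((j + 1 : ℕ) : ℚ) ^ 2 * (j + 1).centralBinom) := by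
    rw [Finset.sum_Ico_eq_sum_range]
    refine Finset.sum_congr rfl fun j _ => ?_
    rw [add_comm 1 j]
  have key : p * ∑ k ∈ Ico 1 p, (u k : ℚ) / ((k : ℚ) ^ 2 * k.centralBinom)
      - (2 * u 0 - u p - ((P u p + P u (p - 1) : ℤ) : ℚ)) / (2 * p)
      = - ∑ j ∈ range (p - 1), (p : ℚ) / ((j + 1) ^ 2 * (j + 1).centralBinom) *
        (∏ i ∈ range j, (1 - (p : ℚ) ^ 2 / (i + 1) ^ 2) - 1) * u (j + 1) := by
    rw [hE, hsplit, Finset.sum_congr rfl hterm, ← Finset.mul_sum, hsum, Finset.mul_sum, ← Finset.sum_neg_distrib]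
    have e : (2 * (u 0 : ℚ) - u p - (2 * u 0 - u p + - (2 * p) * ∑ j ∈ range (p - 1),
        ((p : ℚ) / ((j + 1) ^ 2 * (j + 1).centralBinom) *
        (∏ i ∈ range j, (1 - (p : ℚ) ^ 2 / (i + 1) ^ 2)) * u (j + 1)))) / (2 * p)
        = ∑ j ∈ range (p - 1),
        ((p : ℚ) / ((j + 1) ^ 2 * (j + 1).centralBinom) *
        (∏ i ∈ range j, (1 - (p : ℚ) ^ 2 / (i + 1) ^ 2)) * u (j + 1)) := by
      field_simp
      ring
    rw [e, ← Finset.sum_sub_distrib]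
    refine Finset.sum_congr rfl fun j _ => ?_
    push_cast
    ring
  rw [key]
  refine (D.sum _ _ fun j hj => ?_).neg
  rw [Finset.mem_range] at hj
  exact ((D_x (by omega)).mul0 (D_R (by omega))).mul0' (D.int _)

/-- `C(n+k, 2k) + 2 C(n+k, 2k+1)` -/
theorem A'_mul {n k : ℕ} (hk : k ≤ n) :
    (2 * k + 1) * (((n + k).choose (2 * k) : ℚ) + 2 * ((n + k).choose (2 * k + 1) : ℚ)) = (2 * n + 1) * B n k := by
  unfold B
  have h2 := Nat.choose_succ_right_eq (n + k) (2 * k)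
  have e3 : n + k - 2 * k = n - k := by omega
  rw [e3] at h2
  have h2' : ((n + k).choose (2 * k + 1) : ℚ) * (2 * k + 1) = ((n + k).choose (2 * k) : ℚ) * ((n : ℚ) - k) := by
    rw [← Nat.cast_sub hk]
    exact_mod_cast h2
  linear_combination 2 * h2'

theorem D_cb (hp2 : p ≠ 2) (k : ℕ) : D p 0 ((k.centralBinom : ℚ) / 16 ^ k) := by
  have h1 : ¬ p ∣ 16 := by
    intro h
    have : p ∣ 2 ^ 4 := h
    have := (Nat.prime_dvd_prime_iff_eq hp.out Nat.prime_two).1 (hp.out.dvd_of_dvd_pow this)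
    exact hp2 this
  have h2 := (D.inv h1).pow0 k
  have h3 := (D.nat (p := p) k.centralBinom).mul0 h2
  have e : (k.centralBinom : ℚ) / 16 ^ k = (k.centralBinom : ℚ) * (1 / ((16 : ℕ) : ℚ)) ^ k := by
    rw [one_div_pow]
    push_cast
    ring
  rw [e]
  exact h3

omit hp in
theorem W_eq (u : ℕ → ℤ) (n : ℕ) (hn : p = 2 * n + 1) :
    ((P u n + 2 * Q u n : ℤ) : ℚ) - (-1) ^ n * u n = p * ∑ k ∈ range n, (k.centralBinom : ℚ) / 16 ^ k *
      (1 / ((2 * k + 1 : ℕ) : ℚ)) * (∏ j ∈ range k, (1 - (p : ℚ) ^ 2 / (2 * j + 1) ^ 2)) * u k := by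
  have h1 : ((P u n + 2 * Q u n : ℤ) : ℚ) = ∑ k ∈ range (n + 1), (-1) ^ k *
      (((n + k).choose (2 * k) : ℚ) + 2 * ((n + k).choose (2 * k + 1) : ℚ)) * u k := by
    unfold P Q
    push_cast
    rw [Finset.mul_sum, ← Finset.sum_add_distrib]
    refine Finset.sum_congr rfl fun k _ => ?_
    ring
  rw [h1, Finset.sum_range_succ]
  have h2 : (((n + n).choose (2 * n) : ℚ) + 2 * ((n + n).choose (2 * n + 1) : ℚ)) = 1 := by
    rw [← two_mul, Nat.choose_self, Nat.choose_eq_zero_of_lt (by omega)]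
    norm_num
  rw [h2, mul_one, add_sub_cancel_right, Finset.mul_sum]
  refine Finset.sum_congr rfl fun k hk => ?_
  rw [Finset.mem_range] at hk
  have h3 := A'_mul (n := n) (k := k) (by omega)
  have h4 := prodB n k
  rw [← hn] at h4
  have hk2 : (2 * (k : ℚ) + 1) ≠ 0 := by positivity
  have h5 : (((n + k).choose (2 * k) : ℚ) + 2 * ((n + k).choose (2 * k + 1) : ℚ)) = p * B n k / (2 * k + 1) := by
    rw [eq_div_iff hk2, mul_comm, h3, hn]
    push_cast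
    ring
  rw [h5]
  calc (-1) ^ k * (p * B n k / (2 * k + 1)) * (u k : ℚ) = p * ((-1) ^ k * B n k) / (2 * k + 1) * u k := by ring
    _ = _ := by
      rw [h4]
      push_cast
      ring

theorem D_odd_inv {n k : ℕ} (hn : p = 2 * n + 1) (hk : k < n) : D p 0 (1 / ((2 * k + 1 : ℕ) : ℚ)) :=
  D.inv (not_dvd_of_lt' (by omega) (by omega))

theorem W_mod (u : ℕ → ℤ) (n : ℕ) (hn : p = 2 * n + 1) : (p : ℤ) ∣ P u n + 2 * Q u n - (-1) ^ n * u n := by
  have hp2 : p ≠ 2 := by omega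
  have h1 : D p 1 (((P u n + 2 * Q u n - (-1) ^ n * u n : ℤ)) : ℚ) := by
    have e := W_eq (p := p) u n hn
    have e2 : (((P u n + 2 * Q u n - (-1) ^ n * u n : ℤ)) : ℚ) = ((P u n + 2 * Q u n : ℤ) : ℚ) - (-1) ^ n * u n := by
      push_cast
      ring
    rw [e2, e]
    have h2 := D.ppow (p := p) 1
    rw [pow_one] at h2
    refine h2.mul0' (D.sum _ _ fun k hk => ?_)
    rw [Finset.mem_range] at hk
    have h3 := D_R' (p := p) (k := k) (by omega)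
    have h4 : D p 0 (∏ j ∈ range k, (1 - (p : ℚ) ^ 2 / (2 * j + 1) ^ 2)) := by
      have := (h3.mono (Nat.zero_le 2)).add D.one
      rwa [sub_add_cancel] at this
    exact (((D_cb hp2 k).mul0 (D_odd_inv hn hk)).mul0 h4).mul0 (D.int _)
  have := h1.dvd
  rwa [pow_one] at this

theorem sum2 (u : ℕ → ℤ) (n : ℕ) (hn : p = 2 * n + 1) :
    D p 2 (∑ k ∈ range n, (k.centralBinom : ℚ) * u k / ((2 * k + 1) * 16 ^ k)
      - (((P u n + 2 * Q u n : ℤ) : ℚ) - (-1) ^ n * u n) / p) := by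
  have hp2 : p ≠ 2 := by omega
  have hp0 : (p : ℚ) ≠ 0 := p_ne'
  rw [W_eq (p := p) u n hn, mul_div_cancel_left₀ _ hp0, ← Finset.sum_sub_distrib]
  refine D.sum _ _ fun k hk => ?_
  rw [Finset.mem_range] at hk
  have e : (k.centralBinom : ℚ) * u k / ((2 * k + 1) * 16 ^ k) - (k.centralBinom : ℚ) / 16 ^ k *
      (1 / ((2 * k + 1 : ℕ) : ℚ)) * (∏ j ∈ range k, (1 - (p : ℚ) ^ 2 / (2 * j + 1) ^ 2)) * u k
      = -((k.centralBinom : ℚ) / 16 ^ k * (1 / ((2 * k + 1 : ℕ) : ℚ)) *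
        (∏ j ∈ range k, (1 - (p : ℚ) ^ 2 / (2 * j + 1) ^ 2) - 1) * u k) := by
    push_cast
    have hk2 : (2 * (k : ℚ) + 1) ≠ 0 := by positivity
    field_simp
    ring
  rw [e]
  exact ((((D_cb hp2 k).mul0 (D_odd_inv hn hk)).mul0 (D_R' (by omega))).mul0' (D.int _)).neg

end Q279.CB
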